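import Pool.Agent.U845.XM.Stm
import Pool.Agent.N848.Q.F

/-!
# Project XM, package LK: a one-dimensional left kernel makes the Rédei system good
-/

set_option autoImplicit false
set_option linter.unusedSectionVars false
set_option linter.unusedVariables false

namespace Pool.Agent.U158.XM

open Finset
open Pool.Agent.N973.ND (uu)
open Pool.Agent.N916.GB (Po sy Vt Gd Gv Lm Gv_iff_rank Lm_mulVec Ev Ev_const z2)
open Pool.Agent.U845.XM (S_LK Lk)

open scoped Classical

section la

variable {V : Type} [Fintype V]

/-- the transposed matrix of a system -/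
theorem trans_mulVec (N : V → V → ZMod 2) (x : V → ZMod 2) (p : V) :
    (Lm N).transpose.mulVec x p = ∑ q, (if q = p then 0 else x q * N q p + x p * N p q) := by
  unfold Matrix.mulVec dotProduct
  have h1 : ∀ q, (Lm N).transpose p q * x q = (if q = p then 0 else x q * N q p) +
      (if q = p then (∑ p', (if p' = p then 0 else N p p')) * x p else 0) := by
    intro q
    rw [Matrix.transpose_apply]
    unfold Lm
    by_cases h : q = p
    · rw [if_pos h, if_pos h, if_pos h.symm, zero_add, h]
    · rw [if_neg h, if_neg h, if_neg (fun h' => h h'.symm), add_zero, mul_comm]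
  rw [sum_congr rfl fun q _ => h1 q, sum_add_distrib, sum_ite_eq' univ p, if_pos (mem_univ _),
    sum_mul, ← sum_add_distrib]
  refine sum_congr rfl fun q _ => ?_
  by_cases h : q = p
  · rw [if_pos h, if_pos h, if_pos h, zero_mul, zero_add]
  · rw [if_neg h, if_neg h, if_neg h]
    ring

/-- if the left kernel has at most one nonzero vector, the system is good -/
theorem good_of_left [Nonempty V] {N : V → V → ZMod 2} (y : V → ZMod 2)
    (H : ∀ x : V → ZMod 2, (∀ p, ∑ q, (if q = p then 0 else x q * N q p + x p * N p q) = 0) →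
      x = 0 ∨ x = y) : Gv N := by
  have hk : ∀ x ∈ LinearMap.ker (Lm N).transpose.mulVecLin, x = 0 ∨ x = y := by
    intro x hx
    apply H
    intro p
    rw [LinearMap.mem_ker, Matrix.mulVecLin_apply] at hx
    rw [← trans_mulVec, hx]
    rfl
  have h5 : Module.finrank (ZMod 2) (LinearMap.ker (Lm N).transpose.mulVecLin) ≤ 1 := by
    by_cases hy : y ∈ LinearMap.ker (Lm N).transpose.mulVecLin
    · refine finrank_le_one ⟨y, hy⟩ fun z => ?_
      rcases hk z z.2 with h | h
      · refine ⟨0, Subtype.ext ?_⟩
        rw [h, zero_smul]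
        rfl
      · refine ⟨1, Subtype.ext ?_⟩
        rw [h, one_smul]
    · refine finrank_le_one (0 : LinearMap.ker (Lm N).transpose.mulVecLin) fun z => ?_
      rcases hk z z.2 with h | h
      · refine ⟨0, Subtype.ext ?_⟩
        rw [h, zero_smul]
        rfl
      · exact absurd (h ▸ z.2) hy
  have h2 := LinearMap.finrank_range_add_finrank_ker (Lm N).transpose.mulVecLin
  rw [Module.finrank_fintype_fun_eq_card] at h2
  have h3 : (Lm N).transpose.rank = Module.finrank (ZMod 2)
    (LinearMap.range (Lm N).transpose.mulVecLin) := rfl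
  rw [← h3, Matrix.rank_transpose] at h2
  -- the constants are solutions
  have h1 : (fun _ => (1 : ZMod 2)) ∈ LinearMap.ker (Lm N).mulVecLin := by
    rw [LinearMap.mem_ker, Matrix.mulVecLin_apply]
    funext q
    rw [Lm_mulVec]
    exact Ev_const N 1 q
  have h2' := LinearMap.finrank_range_add_finrank_ker (Lm N).mulVecLin
  rw [Module.finrank_fintype_fun_eq_card] at h2'
  have h3' : (Lm N).rank = Module.finrank (ZMod 2) (LinearMap.range (Lm N).mulVecLin) := rfl
  rw [← h3'] at h2'
  have hne : (⟨_, h1⟩ : LinearMap.ker (Lm N).mulVecLin) ≠ 0 := by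
    intro h
    have h4 := congrArg Subtype.val h
    have h5 := congrFun h4 (Classical.arbitrary V)
    exact one_ne_zero h5
  have h4 : 1 ≤ Module.finrank (ZMod 2) (LinearMap.ker (Lm N).mulVecLin) := by
    have : 0 < Module.finrank (ZMod 2) (LinearMap.ker (Lm N).mulVecLin) := by
      rw [Module.finrank_pos_iff]
      exact ⟨⟨_, _, hne⟩⟩
    omega
  rw [Gv_iff_rank]
  omega

end la

/-- XM-LK -/
theorem t_LK : S_LK := by
  intro t r s S hS ht hU hV H
  obtain ⟨p₀, hp₀⟩ := hV
  have : Nonempty (Vt t S) := ⟨⟨p₀, hp₀⟩⟩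
  rw [Pool.Agent.N848.Q.Gd_iff]
  refine good_of_left (fun p : Vt t S => if (p : ℕ) = 2 then r else 1) fun x hx => ?_
  have h1 : ∀ p ∈ Vt t S, Lk t r s S (fun p => if hp : p ∈ Vt t S then x ⟨p, hp⟩ else 0) p = 0 := by
    intro p hp
    unfold Lk
    rw [← sum_coe_sort (Vt t S)]
    refine Eq.trans (sum_congr rfl fun q _ => ?_) (hx ⟨p, hp⟩)
    by_cases h : q = ⟨p, hp⟩
    · rw [if_pos h, if_pos (congrArg Subtype.val h)]
    · rw [if_neg h, if_neg fun h' => h (Subtype.ext h')]
      beta_reduce
      rw [dif_pos q.2, dif_pos hp]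
  rcases H _ h1 with h | h
  · left
    funext p
    have h2 := h p p.2
    beta_reduce at h2
    rw [dif_pos p.2] at h2
    exact h2
  · right
    funext p
    have h2 := h p p.2
    beta_reduce at h2
    rw [dif_pos p.2] at h2
    exact h2

end Pool.Agent.U158.XM
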